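import Pool.Agent.Helper66.E7.Defs

/-!
# Project 7E (MP_a499ba_nt), block D: the direct side, by partial summation
-/

set_option autoImplicit false

open Complex Filter Topology MeasureTheory Set
open Pool.Agent.Helper71.MR (ms mm rr rr_meas rr_bd mm_meas mm_bd C54 C54_nonneg)
open Pool.Agent.Helper18.ES (mu)

namespace Pool.Agent.E7

/-- the antiderivative -/
lemma dInt_sin (T f L : ℝ) : ∫ v in (0:ℝ)..L, 2 * Real.pi * T * (Real.exp (-v) * Real.sin (2 * Real.pi * T * Real.exp (-v) + f)) =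
    Real.cos (2 * Real.pi * T * Real.exp (-L) + f) - Real.cos (2 * Real.pi * T + f) := by
  have h : ∀ v ∈ uIcc 0 L, HasDerivAt (fun v : ℝ => Real.cos (2 * Real.pi * T * Real.exp (-v) + f))
      (2 * Real.pi * T * (Real.exp (-v) * Real.sin (2 * Real.pi * T * Real.exp (-v) + f))) v := by
    intro v _
    have h1 : HasDerivAt (fun v : ℝ => Real.exp (-v)) (-Real.exp (-v)) v := by
      simpa using (hasDerivAt_neg v).exp
    have h2 := (((h1.const_mul (2 * Real.pi * T)).add_const f).cos)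
    convert h2 using 1
    ring
  rw [intervalIntegral.integral_eq_sub_of_hasDerivAt h
    ((by fun_prop : Continuous fun v : ℝ => 2 * Real.pi * T * (Real.exp (-v) * Real.sin (2 * Real.pi * T * Real.exp (-v) + f))).intervalIntegrable _ _)]
  simp

/-- the summatory function at a smaller point -/
lemma dS_shift (a : ℕ → ℝ) {u v : ℝ} (hv : 0 < v) :
    ∑ n ∈ Finset.Icc 1 ⌊Real.exp (u - v)⌋₊, a n =
      ∑ n ∈ Finset.Icc 1 ⌊Real.exp u⌋₊, a n * (Iic (u - Real.log n)).indicator (fun _ => (1:ℝ)) v := by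
  have h : Finset.Icc 1 ⌊Real.exp (u - v)⌋₊ = (Finset.Icc 1 ⌊Real.exp u⌋₊).filter (fun n : ℕ => v ≤ u - Real.log n) := by
    ext n
    rw [Finset.mem_filter, Finset.mem_Icc, Finset.mem_Icc, Nat.le_floor_iff (Real.exp_pos _).le,
      Nat.le_floor_iff (Real.exp_pos _).le]
    constructor
    · rintro ⟨h1, h2⟩
      have hn : (0:ℝ) < n := by exact_mod_cast h1
      have h3 : Real.log n ≤ u - v := by
        have := Real.log_le_log hn h2
        rwa [Real.log_exp] at this
      exact ⟨⟨h1, h2.trans (Real.exp_le_exp.2 (by linarith))⟩, by linarith⟩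
    · rintro ⟨⟨h1, _⟩, h2⟩
      have hn : (0:ℝ) < n := by exact_mod_cast h1
      refine ⟨h1, ?_⟩
      rw [← Real.log_le_iff_le_exp hn]
      linarith
  rw [h, Finset.sum_filter]
  refine Finset.sum_congr rfl fun n _ => ?_
  by_cases h : v ≤ u - Real.log n
  · rw [if_pos h, indicator_of_mem (show v ∈ Iic (u - Real.log n) from h), mul_one]
  · rw [if_neg h, indicator_of_notMem (show v ∉ Iic (u - Real.log n) from h), mul_zero]

/-- partial summation -/
lemma dPart_sum (a : ℕ → ℝ) (T f u : ℝ) :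
    Real.cos (2 * Real.pi * T + f) * ((∑ n ∈ Finset.Icc 1 ⌊Real.exp u⌋₊, a n) * Real.exp (-u / 2)) +
      2 * Real.pi * T * ∫ v in Ioi (0:ℝ), Real.exp (-(3 / 2 * v)) * Real.sin (2 * Real.pi * T * Real.exp (-v) + f) *
        ((∑ n ∈ Finset.Icc 1 ⌊Real.exp (u - v)⌋₊, a n) * Real.exp (-(u - v) / 2)) =
    Real.exp (-(u / 2)) * ∑ n ∈ Finset.Icc 1 ⌊Real.exp u⌋₊, a n * Real.cos (2 * Real.pi * T * (n / Real.exp u) + f) := by
  set g : ℝ → ℝ := fun v => Real.exp (-v) * Real.sin (2 * Real.pi * T * Real.exp (-v) + f) with hg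
  have hgc : Continuous g := by rw [hg]; fun_prop
  have e1 : ∫ v in Ioi (0:ℝ), Real.exp (-(3 / 2 * v)) * Real.sin (2 * Real.pi * T * Real.exp (-v) + f) *
        ((∑ n ∈ Finset.Icc 1 ⌊Real.exp (u - v)⌋₊, a n) * Real.exp (-(u - v) / 2)) =
      ∫ v in Ioi (0:ℝ), ∑ n ∈ Finset.Icc 1 ⌊Real.exp u⌋₊, Real.exp (-(u / 2)) * a n * (Iic (u - Real.log n)).indicator g v := by
    refine setIntegral_congr_fun measurableSet_Ioi fun v hv => ?_
    have hv0 : (0:ℝ) < v := hv
    have e : Real.exp (-(3 / 2 * v)) * Real.exp (-(u - v) / 2) = Real.exp (-(u / 2)) * Real.exp (-v) := by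
      rw [← Real.exp_add, ← Real.exp_add]; congr 1; ring
    show Real.exp (-(3 / 2 * v)) * Real.sin (2 * Real.pi * T * Real.exp (-v) + f) *
        ((∑ n ∈ Finset.Icc 1 ⌊Real.exp (u - v)⌋₊, a n) * Real.exp (-(u - v) / 2)) = _
    rw [dS_shift a hv0, Finset.sum_mul, Finset.mul_sum]
    refine Finset.sum_congr rfl fun n _ => ?_
    by_cases h : v ∈ Iic (u - Real.log n)
    · rw [indicator_of_mem h, indicator_of_mem h]
      calc _ = (Real.exp (-(3 / 2 * v)) * Real.exp (-(u - v) / 2)) * Real.sin (2 * Real.pi * T * Real.exp (-v) + f) * a n := by ring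
        _ = _ := by rw [e, hg]; ring
    · rw [indicator_of_notMem h, indicator_of_notMem h]; ring
  have hint : ∀ n ∈ Finset.Icc 1 ⌊Real.exp u⌋₊, IntegrableOn (fun v => Real.exp (-(u / 2)) * a n * (Iic (u - Real.log n)).indicator g v) (Ioi 0) := by
    intro n _
    refine Integrable.const_mul ?_ _
    rw [integrable_indicator_iff measurableSet_Iic, IntegrableOn, Measure.restrict_restrict measurableSet_Iic]
    refine IntegrableOn.mono_set (hgc.integrableOn_Icc (a := 0) (b := u - Real.log n)) ?_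
    rintro v ⟨h1, h2⟩
    exact ⟨le_of_lt h2, h1⟩
  have e2 : ∀ n ∈ Finset.Icc 1 ⌊Real.exp u⌋₊, 2 * Real.pi * T * ∫ v in Ioi (0:ℝ), Real.exp (-(u / 2)) * a n * (Iic (u - Real.log n)).indicator g v =
      Real.exp (-(u / 2)) * a n * (Real.cos (2 * Real.pi * T * (n / Real.exp u) + f) - Real.cos (2 * Real.pi * T + f)) := by
    intro n hn
    rw [Finset.mem_Icc, Nat.le_floor_iff (Real.exp_pos _).le] at hn
    have hn0 : (0:ℝ) < n := by exact_mod_cast hn.1
    have hL : 0 ≤ u - Real.log n := by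
      have := Real.log_le_log hn0 hn.2
      rw [Real.log_exp] at this
      linarith
    have h3 : Real.exp (-(u - Real.log n)) = n / Real.exp u := by
      rw [neg_sub, Real.exp_sub, Real.exp_log hn0]
    rw [integral_const_mul, setIntegral_indicator measurableSet_Iic, Ioi_inter_Iic, ← intervalIntegral.integral_of_le hL]
    have h4 := dInt_sin T f (u - Real.log n)
    rw [intervalIntegral.integral_const_mul, h3] at h4
    rw [← h4]
    ring
  rw [e1, integral_finsetSum _ hint, Finset.mul_sum, Finset.sum_congr rfl e2, Finset.mul_sum, Finset.sum_mul, Finset.mul_sum,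
    ← Finset.sum_add_distrib]
  refine Finset.sum_congr rfl fun n _ => ?_
  rw [show -u / 2 = -(u / 2) by ring]
  ring

/-- the convolution of a small function -/
lemma dConv_small {rr : ℝ → ℝ} {C : ℝ} (hC : 0 ≤ C) (hm : Measurable rr)
    (hb : ∀ t, |rr t| ≤ C * (Real.exp (-t / 2) + Real.exp (-(3 * t / 4)))) (T f : ℝ) {u : ℝ} (hu : 0 ≤ u) :
    IntegrableOn (fun v => Real.exp (-(3 / 2 * v)) * Real.sin (2 * Real.pi * T * Real.exp (-v) + f) * rr (u - v)) (Ioi 0) ∧
    |Real.cos (2 * Real.pi * T + f) * rr u + 2 * Real.pi * T * ∫ v in Ioi (0:ℝ),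
      Real.exp (-(3 / 2 * v)) * Real.sin (2 * Real.pi * T * Real.exp (-v) + f) * rr (u - v)| ≤
      C * (2 + 2 * Real.pi * |T| * 3) * Real.exp (-(u / 2)) := by
  have i2 : IntegrableOn (fun v : ℝ => Real.exp (-(3 / 4) * v)) (Ioi 0) := exp_neg_integrableOn_Ioi 0 (by norm_num)
  have i1' : IntegrableOn (fun v : ℝ => Real.exp (-1 * v)) (Ioi 0) := exp_neg_integrableOn_Ioi 0 (by norm_num)
  have v1 : ∫ v in Ioi (0:ℝ), Real.exp (-1 * v) = 1 := by
    have := integral_exp_mul_Ioi (a := -1) (by norm_num) 0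
    rw [this]; norm_num
  have v2 : ∫ v in Ioi (0:ℝ), Real.exp (-(3 / 4) * v) = 4 / 3 := by
    have := integral_exp_mul_Ioi (a := -(3 / 4)) (by norm_num) 0
    rw [this]; norm_num
  set G : ℝ → ℝ := fun v => C * (Real.exp (-(u / 2)) * Real.exp (-1 * v) + Real.exp (-(3 * u / 4)) * Real.exp (-(3 / 4) * v)) with hG
  have iG : IntegrableOn G (Ioi 0) := ((i1'.const_mul _).add (i2.const_mul _)).const_mul C
  have hle : ∀ v : ℝ, ‖Real.exp (-(3 / 2 * v)) * Real.sin (2 * Real.pi * T * Real.exp (-v) + f) * rr (u - v)‖ ≤ G v := by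
    intro v
    rw [norm_mul, norm_mul, Real.norm_eq_abs, Real.norm_eq_abs, Real.norm_eq_abs, abs_of_pos (Real.exp_pos _)]
    have h1 := hb (u - v)
    have h2 := Real.abs_sin_le_one (2 * Real.pi * T * Real.exp (-v) + f)
    calc Real.exp (-(3 / 2 * v)) * |Real.sin (2 * Real.pi * T * Real.exp (-v) + f)| * |rr (u - v)|
        ≤ Real.exp (-(3 / 2 * v)) * 1 * (C * (Real.exp (-(u - v) / 2) + Real.exp (-(3 * (u - v) / 4)))) :=
          mul_le_mul (mul_le_mul_of_nonneg_left h2 (Real.exp_pos _).le) h1 (abs_nonneg _) (by positivity)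
      _ = C * (Real.exp (-(3 / 2 * v)) * Real.exp (-(u - v) / 2) + Real.exp (-(3 / 2 * v)) * Real.exp (-(3 * (u - v) / 4))) := by ring
      _ = C * (Real.exp (-(u / 2)) * Real.exp (-1 * v) + Real.exp (-(3 * u / 4)) * Real.exp (-(3 / 4) * v)) := by
          rw [← Real.exp_add, ← Real.exp_add, ← Real.exp_add, ← Real.exp_add]
          congr 3 <;> ring_nf
  have hint : IntegrableOn (fun v => Real.exp (-(3 / 2 * v)) * Real.sin (2 * Real.pi * T * Real.exp (-v) + f) * rr (u - v)) (Ioi 0) := by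
    refine Integrable.mono' iG ?_ (Eventually.of_forall hle)
    exact Measurable.aestronglyMeasurable (by fun_prop)
  refine ⟨hint, ?_⟩
  have hI : |∫ v in Ioi (0:ℝ), Real.exp (-(3 / 2 * v)) * Real.sin (2 * Real.pi * T * Real.exp (-v) + f) * rr (u - v)| ≤
      C * (Real.exp (-(u / 2)) * 1 + Real.exp (-(3 * u / 4)) * (4 / 3)) := by
    calc _ ≤ ∫ v in Ioi (0:ℝ), G v := norm_integral_le_of_norm_le iG (Eventually.of_forall hle)
      _ = _ := by
        rw [hG, integral_const_mul, integral_add (i1'.const_mul _) (i2.const_mul _), integral_const_mul, integral_const_mul, v1, v2]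
  have h3 : Real.exp (-(3 * u / 4)) ≤ Real.exp (-(u / 2)) := Real.exp_le_exp.2 (by linarith)
  have h4 : |rr u| ≤ C * (2 * Real.exp (-(u / 2))) := by
    refine (hb u).trans (mul_le_mul_of_nonneg_left ?_ hC)
    rw [show -u / 2 = -(u / 2) by ring]
    linarith
  have h5 : C * (Real.exp (-(u / 2)) * 1 + Real.exp (-(3 * u / 4)) * (4 / 3)) ≤ C * (3 * Real.exp (-(u / 2))) := by
    refine mul_le_mul_of_nonneg_left ?_ hC
    have := Real.exp_pos (-(u / 2))
    linarith
  calc _ ≤ |Real.cos (2 * Real.pi * T + f) * rr u| + |2 * Real.pi * T * ∫ v in Ioi (0:ℝ),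
      Real.exp (-(3 / 2 * v)) * Real.sin (2 * Real.pi * T * Real.exp (-v) + f) * rr (u - v)| := abs_add_le _ _
    _ ≤ 1 * (C * (2 * Real.exp (-(u / 2)))) + 2 * Real.pi * |T| * (C * (3 * Real.exp (-(u / 2)))) := by
        rw [abs_mul, abs_mul, abs_mul, abs_of_pos Real.two_pi_pos]
        refine add_le_add (mul_le_mul (Real.abs_cos_le_one _) h4 (abs_nonneg _) zero_le_one) ?_
        exact mul_le_mul_of_nonneg_left (hI.trans h5) (by positivity)
    _ = _ := by ring

theorem dCore {mm rr : ℝ → ℝ} {a : ℕ → ℝ} {C : ℝ} (hC : 0 ≤ C) (hm : Measurable rr)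
    (hb : ∀ t, |rr t| ≤ C * (Real.exp (-t / 2) + Real.exp (-(3 * t / 4))))
    (hmm : ∀ t, mm t = (∑ n ∈ Finset.Icc 1 ⌊Real.exp t⌋₊, a n) * Real.exp (-t / 2)) (hmeas : Measurable mm)
    (hbd : ∀ t, |mm t| ≤ Real.exp (t / 2)) (T f u : ℝ) (hu : 0 ≤ u) :
    |(Real.cos (2 * Real.pi * T + f) * (mm u + rr u) + 2 * Real.pi * T * ∫ v in Ioi (0:ℝ),
      Real.exp (-(3 / 2 * v)) * Real.sin (2 * Real.pi * T * Real.exp (-v) + f) * (mm (u - v) + rr (u - v))) -
      Real.exp (-(u / 2)) * ∑ n ∈ Finset.Icc 1 ⌊Real.exp u⌋₊, a n * Real.cos (2 * Real.pi * T * (n / Real.exp u) + f)| ≤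
      C * (2 + 2 * Real.pi * |T| * 3) * Real.exp (-(u / 2)) := by
  obtain ⟨h1, h2⟩ := dConv_small hC hm hb T f hu
  have h3 : IntegrableOn (fun v => Real.exp (-(3 / 2 * v)) * Real.sin (2 * Real.pi * T * Real.exp (-v) + f) * mm (u - v)) (Ioi 0) := by
    have i2 : IntegrableOn (fun v : ℝ => Real.exp (-2 * v)) (Ioi 0) := exp_neg_integrableOn_Ioi 0 (by norm_num)
    refine Integrable.mono' (i2.const_mul (Real.exp (u / 2))) ?_ (Eventually.of_forall fun v => ?_)
    · exact Measurable.aestronglyMeasurable (by fun_prop)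
    · rw [norm_mul, norm_mul, Real.norm_eq_abs, Real.norm_eq_abs, Real.norm_eq_abs, abs_of_pos (Real.exp_pos _)]
      calc Real.exp (-(3 / 2 * v)) * |Real.sin (2 * Real.pi * T * Real.exp (-v) + f)| * |mm (u - v)|
          ≤ Real.exp (-(3 / 2 * v)) * 1 * Real.exp ((u - v) / 2) :=
            mul_le_mul (mul_le_mul_of_nonneg_left (Real.abs_sin_le_one _) (Real.exp_pos _).le) (hbd _) (abs_nonneg _) (by positivity)
        _ = Real.exp (u / 2) * Real.exp (-2 * v) := by
            rw [mul_one, ← Real.exp_add, ← Real.exp_add]; congr 1; ring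
  have h4 : ∫ v in Ioi (0:ℝ), Real.exp (-(3 / 2 * v)) * Real.sin (2 * Real.pi * T * Real.exp (-v) + f) * (mm (u - v) + rr (u - v)) =
      (∫ v in Ioi (0:ℝ), Real.exp (-(3 / 2 * v)) * Real.sin (2 * Real.pi * T * Real.exp (-v) + f) * mm (u - v)) +
      ∫ v in Ioi (0:ℝ), Real.exp (-(3 / 2 * v)) * Real.sin (2 * Real.pi * T * Real.exp (-v) + f) * rr (u - v) := by
    rw [← integral_add h3 h1]
    simp only [mul_add]
  have h5 := dPart_sum a T f u
  simp only [← hmm] at h5
  rw [h4, ← h5]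
  refine le_trans (le_of_eq ?_) h2
  congr 1
  ring

/-- D: the direct side -/
theorem stmtD : StmtD := by
  intro T f
  refine ⟨(2 + 2 * C54) * (2 + 2 * Real.pi * |T| * 3), fun u hu => ?_⟩
  have hC : (0:ℝ) ≤ 2 + 2 * C54 := by have := C54_nonneg; linarith
  exact dCore (mm := mm) (rr := rr) (a := mu) hC rr_meas rr_bd (fun t => rfl) mm_meas mm_bd T f u hu

end Pool.Agent.E7
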